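import Mathlib

/-!
# A generalised reflection subgroup that is not a right-angled Coxeter group
-/

set_option autoImplicit false

namespace Pool.Agent.Results.MP_6a2cdd_al.NotCoxeter

universe u

/-- The defining relators of the right-angled Coxeter group `C(Γ)`: `u^2` for all vertices `u` and
`u v u⁻¹ v⁻¹` for all edges `{u, v}`. -/
def rels {V : Type u} (Γ : SimpleGraph V) : Set (FreeGroup V) :=
  {r | (∃ u, r = FreeGroup.of u * FreeGroup.of u) ∨
    ∃ u v, Γ.Adj u v ∧ r = FreeGroup.of u * FreeGroup.of v * (FreeGroup.of u)⁻¹ * (FreeGroup.of v)⁻¹}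

/-- The right-angled Coxeter group `C(Γ)`. -/
abbrev RACG {V : Type u} (Γ : SimpleGraph V) : Type u := PresentedGroup (rels Γ)

/-- The standard generator of a vertex. -/
abbrev gen {V : Type u} (Γ : SimpleGraph V) (v : V) : RACG Γ := PresentedGroup.of v

/-- Reflections: conjugates of standard generators. -/
def IsReflection {V : Type u} (Γ : SimpleGraph V) (x : RACG Γ) : Prop :=
  ∃ (g : RACG Γ) (v : V), x = g * gen Γ v * g⁻¹

/-- Generalised reflections: products `r_1 ⋯ r_k`, `k ≥ 1`, of pairwise commuting reflections. -/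
def IsGenReflection {V : Type u} (Γ : SimpleGraph V) (x : RACG Γ) : Prop :=
  ∃ l : List (RACG Γ), l ≠ [] ∧ (∀ r ∈ l, IsReflection Γ r) ∧ l.Pairwise Commute ∧ x = l.prod

section general
variable {V : Type u} (Γ : SimpleGraph V)

theorem gen_sq (v : V) : gen Γ v * gen Γ v = 1 := by
  have : PresentedGroup.mk (rels Γ) (FreeGroup.of v * FreeGroup.of v) = 1 :=
    PresentedGroup.one_of_mem (Or.inl ⟨v, rfl⟩)
  rwa [map_mul] at this

theorem gen_comm {v w : V} (h : Γ.Adj v w) : gen Γ v * gen Γ w = gen Γ w * gen Γ v := by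
  have : PresentedGroup.mk (rels Γ) (FreeGroup.of v * FreeGroup.of w * (FreeGroup.of v)⁻¹ *
      (FreeGroup.of w)⁻¹) = 1 :=
    PresentedGroup.one_of_mem (Or.inr ⟨v, w, h, rfl⟩)
  rw [map_mul, map_mul, map_mul, map_inv, map_inv, mul_inv_eq_one, mul_inv_eq_iff_eq_mul] at this
  exact this

/-- homomorphisms out of `C(Γ)` -/
noncomputable def lft {P : Type*} [Group P] (f : V → P) (h1 : ∀ v, f v * f v = 1)
    (h2 : ∀ v w, Γ.Adj v w → f v * f w = f w * f v) : RACG Γ →* P :=
  PresentedGroup.toGroup (f := f) (by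
    rintro r (⟨v, rfl⟩ | ⟨v, w, h, rfl⟩)
    · rw [map_mul, FreeGroup.lift_apply_of]; exact h1 v
    · rw [map_mul, map_mul, map_mul, map_inv, map_inv, FreeGroup.lift_apply_of,
        FreeGroup.lift_apply_of, mul_inv_eq_one, mul_inv_eq_iff_eq_mul]
      exact h2 v w h)

theorem lft_gen {P : Type*} [Group P] (f : V → P) (h1 : ∀ v, f v * f v = 1)
    (h2 : ∀ v w, Γ.Adj v w → f v * f w = f w * f v) (v : V) : lft Γ f h1 h2 (gen Γ v) = f v :=
  PresentedGroup.toGroup.of _

theorem hom_ext {P : Type*} [Group P] {f g : RACG Γ →* P} (h : ∀ v, f (gen Γ v) = g (gen Γ v)) :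
    f = g := PresentedGroup.ext h

/-- characters -/
noncomputable def chr (z : V → ℤˣ) : RACG Γ →* ℤˣ :=
  lft Γ z (fun v => Int.units_mul_self (z v)) (fun _ _ _ => mul_comm _ _)

theorem chr_gen (z : V → ℤˣ) (v : V) : chr Γ z (gen Γ v) = z v := lft_gen Γ _ _ _ v

theorem gen_ne_one (v : V) : gen Γ v ≠ 1 := by
  intro h
  have := chr_gen Γ (fun _ => -1) v
  rw [h, map_one] at this
  exact absurd this (by decide)

/-- a vertex with two non-neighbours produces squares which do not commute -/
theorem not_law {a b w : V} (hab : a ≠ b) (haw : a ≠ w) (hbw : b ≠ w) (h1 : ¬ Γ.Adj a w)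
    (h2 : ¬ Γ.Adj b w) : ∃ x y : RACG Γ, x ^ 2 * y ^ 2 ≠ y ^ 2 * x ^ 2 := by
  classical
  let f : V → Equiv.Perm (Fin 4) := fun v => if v = a then Equiv.swap 0 1 else
    if v = b then Equiv.swap 2 3 else if v = w then Equiv.swap 1 2 else 1
  have fa : f a = Equiv.swap 0 1 := by simp [f]
  have fb : f b = Equiv.swap 2 3 := by simp [f, hab.symm]
  have fw : f w = Equiv.swap 1 2 := by simp [f, haw.symm, hbw.symm]
  have fo : ∀ v, v ≠ a → v ≠ b → v ≠ w → f v = 1 := by
    intro v h1 h2 h3; simp [f, h1, h2, h3]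
  have hf1 : ∀ v, f v * f v = 1 := by
    intro v
    by_cases ha : v = a
    · rw [ha, fa]; decide
    by_cases hb : v = b
    · rw [hb, fb]; decide
    by_cases hw : v = w
    · rw [hw, fw]; decide
    rw [fo v ha hb hw, mul_one]
  have hf2 : ∀ v v', Γ.Adj v v' → f v * f v' = f v' * f v := by
    intro v v' h
    by_cases ha : v = a
    · subst ha
      by_cases ha' : v' = v
      · rw [ha']
      by_cases hb' : v' = b
      · rw [hb', fa, fb]; decide
      by_cases hw' : v' = w
      · rw [hw'] at h; exact absurd h h1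
      rw [fo v' ha' hb' hw', mul_one, one_mul]
    by_cases hb : v = b
    · subst hb
      by_cases ha' : v' = a
      · rw [ha', fa, fb]; decide
      by_cases hb' : v' = v
      · rw [hb']
      by_cases hw' : v' = w
      · rw [hw'] at h; exact absurd h h2
      rw [fo v' ha' hb' hw', mul_one, one_mul]
    by_cases hw : v = w
    · subst hw
      by_cases ha' : v' = a
      · rw [ha'] at h; exact absurd h.symm h1
      by_cases hb' : v' = b
      · rw [hb'] at h; exact absurd h.symm h2
      by_cases hw' : v' = v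
      · rw [hw']
      rw [fo v' ha' hb' hw', mul_one, one_mul]
    rw [fo v ha hb hw, mul_one, one_mul]
  refine ⟨gen Γ a * gen Γ w, gen Γ b * gen Γ w, fun h => ?_⟩
  have := congrArg (lft Γ f hf1 hf2) h
  simp only [map_mul, map_pow, lft_gen, fa, fb, fw] at this
  revert this
  decide

theorem central {w : V} (h : ∀ v, v ≠ w → Γ.Adj v w) (x : RACG Γ) :
    x * gen Γ w = gen Γ w * x := by
  have : (⊤ : Subgroup (RACG Γ)) ≤ Subgroup.centralizer {gen Γ w} := by
    rw [← PresentedGroup.closure_range_of, Subgroup.closure_le]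
    rintro _ ⟨v, rfl⟩
    rw [SetLike.mem_coe, Subgroup.mem_centralizer_iff]
    rintro _ rfl
    by_cases hv : v = w
    · rw [hv]
    · exact (gen_comm Γ (h v hv)).symm
  have h1 := this (Subgroup.mem_top x)
  rw [Subgroup.mem_centralizer_iff] at h1
  exact (h1 _ rfl).symm

end general

/-! ### the infinite dihedral group -/

abbrev D := DihedralGroup 0

theorem inv_conj {G : Type*} [Group G] {p q : G} (hp : p * p = 1) (hq : q * q = 1) (i : ℤ) :
    (p * q) ^ i * p = p * (p * q) ^ (-i) := by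
  have hp' : p⁻¹ = p := inv_eq_of_mul_eq_one_left hp
  have hq' : q⁻¹ = q := inv_eq_of_mul_eq_one_left hq
  have h1 : MulAut.conj p ((p * q) ^ i) = (p * q) ^ (-i) := by
    rw [map_zpow, MulAut.conj_apply, hp', zpow_neg, ← inv_zpow, mul_inv_rev, hp', hq']
    congr 1
    rw [← mul_assoc, hp, one_mul]
  rw [← h1, MulAut.conj_apply, hp']
  rw [← mul_assoc, ← mul_assoc, hp, one_mul]

/-- the integer underlying an element of `ZMod 0` -/
def zi (i : ZMod 0) : ℤ := i

theorem zi_add (i j : ZMod 0) : zi (i + j) = zi i + zi j := rfl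
theorem zi_sub (i j : ZMod 0) : zi (i - j) = zi i - zi j := rfl

/-- the homomorphism from the infinite dihedral group given by two involutions -/
def dihFun {G : Type*} [Group G] (p q : G) : D → G
  | .r i => (p * q) ^ (zi i)
  | .sr i => p * (p * q) ^ (zi i)

def dih {G : Type*} [Group G] (p q : G) (hp : p * p = 1) (hq : q * q = 1) : D →* G :=
  MonoidHom.mk' (dihFun p q) (by
  have key := inv_conj hp hq
  rintro (i | i) (j | j)
  · rw [DihedralGroup.r_mul_r]
    simp only [dihFun, zi_add]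
    exact zpow_add (p * q) _ _
  · rw [DihedralGroup.r_mul_sr]
    simp only [dihFun, zi_sub]
    rw [← mul_assoc, key, mul_assoc, ← zpow_add]
    congr 2; ring
  · rw [DihedralGroup.sr_mul_r]
    simp only [dihFun, zi_add]
    rw [mul_assoc, ← zpow_add]
  · rw [DihedralGroup.sr_mul_sr]
    simp only [dihFun, zi_sub]
    rw [← mul_assoc, mul_assoc p, key, ← mul_assoc, hp, one_mul, ← zpow_add]
    congr 1; ring)

theorem D_sq (x y : D) : x ^ 2 * y ^ 2 = y ^ 2 * x ^ 2 := by
  rcases x with (i | i) <;> rcases y with (j | j) <;> simp [pow_two, add_comm, add_left_comm]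

/-- the sign character of the dihedral group -/
def sgn : D →* ℤˣ := MonoidHom.mk' (fun x => match x with
    | .r _ => 1
    | .sr _ => -1) (by
  rintro (i | i) (j | j) <;> rfl)

def parFun : D → ℤˣ
  | .r i => Int.negOnePow (zi i)
  | .sr i => Int.negOnePow (zi i)

/-- the parity character of the dihedral group -/
def par : D →* ℤˣ := MonoidHom.mk' parFun (by
  rintro (i | i) (j | j)
  · rw [DihedralGroup.r_mul_r]
    simp only [parFun, zi_add, Int.negOnePow_add]
  · rw [DihedralGroup.r_mul_sr]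
    simp only [parFun, zi_sub, Int.negOnePow_sub, mul_comm]
  · rw [DihedralGroup.sr_mul_r]
    simp only [parFun, zi_add, Int.negOnePow_add]
  · rw [DihedralGroup.sr_mul_sr]
    simp only [parFun, zi_sub, Int.negOnePow_sub, mul_comm])

theorem zi_zero : zi 0 = 0 := rfl
theorem zi_one : zi 1 = 1 := rfl
theorem zi_inj {i j : ZMod 0} (h : zi i = zi j) : i = j := h

theorem cent0 {x : D} (h0 : x * .sr 0 = .sr 0 * x) (h1 : x * .sr 1 = .sr 1 * x) : x = 1 := by
  rcases x with (i | i)
  · rw [DihedralGroup.r_mul_sr, DihedralGroup.sr_mul_r] at h0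
    have h2 := congrArg zi (DihedralGroup.sr.inj h0)
    rw [zi_add, zi_sub, zi_zero] at h2
    have h3 : i = 0 := zi_inj (by rw [zi_zero]; omega)
    rw [h3]; rfl
  · rw [DihedralGroup.sr_mul_sr, DihedralGroup.sr_mul_sr] at h0 h1
    have e0 := congrArg zi (DihedralGroup.r.inj h0)
    have e1 := congrArg zi (DihedralGroup.r.inj h1)
    rw [zi_sub, zi_sub, zi_zero] at e0
    rw [zi_sub, zi_sub, zi_one] at e1
    exfalso
    omega

/-! ### the square -/

/-- The 4-cycle, with edges joining `{0, 1}` to `{2, 3}`. -/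
def Sq : SimpleGraph (Fin 4) := SimpleGraph.fromRel (fun i j => i < 2 ∧ 2 ≤ j)

theorem adj_iff (i j : Fin 4) : Sq.Adj i j ↔ (i < 2 ∧ 2 ≤ j) ∨ (j < 2 ∧ 2 ≤ i) := by
  rw [Sq, SimpleGraph.fromRel_adj]
  constructor
  · exact fun h => h.2
  · intro h
    refine ⟨?_, h⟩
    rintro rfl
    omega

abbrev C4 := RACG Sq

/-- the values of the generators in `D × D` -/
def val : Fin 4 → D × D := ![(.sr 0, 1), (.sr 1, 1), (1, .sr 0), (1, .sr 1)]

noncomputable def rho : C4 →* D × D := lft Sq val
  (by intro v; fin_cases v <;> simp [val, DihedralGroup.sr_mul_sr])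
  (by
    intro v w h
    rw [adj_iff] at h
    fin_cases v <;> fin_cases w <;> first | (exfalso; revert h; decide) | simp [val])

theorem rho_gen (v : Fin 4) : rho (gen Sq v) = val v := lft_gen _ _ _ _ v

noncomputable def sec : D × D →* C4 :=
  MonoidHom.noncommCoprod (dih (gen Sq 0) (gen Sq 1) (gen_sq _ _) (gen_sq _ _))
    (dih (gen Sq 2) (gen Sq 3) (gen_sq _ _) (gen_sq _ _)) (by
    intro x y
    have c02 : Commute (gen Sq 0) (gen Sq 2) := gen_comm Sq (by rw [adj_iff]; decide)
    have c03 : Commute (gen Sq 0) (gen Sq 3) := gen_comm Sq (by rw [adj_iff]; decide)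
    have c12 : Commute (gen Sq 1) (gen Sq 2) := gen_comm Sq (by rw [adj_iff]; decide)
    have c13 : Commute (gen Sq 1) (gen Sq 3) := gen_comm Sq (by rw [adj_iff]; decide)
    have c0 : ∀ j : ℤ, Commute (gen Sq 0) ((gen Sq 2 * gen Sq 3) ^ j) :=
      fun j => (c02.mul_right c03).zpow_right j
    have c01 : ∀ i j : ℤ, Commute ((gen Sq 0 * gen Sq 1) ^ i) ((gen Sq 2 * gen Sq 3) ^ j) :=
      fun i j => Commute.zpow_zpow ((c02.mul_right c03).mul_left (c12.mul_right c13)) i j
    have c2 : ∀ i : ℤ, Commute ((gen Sq 0 * gen Sq 1) ^ i) (gen Sq 2) :=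
      fun i => (c02.mul_left c12).zpow_left i
    rcases x with (i | i) <;> rcases y with (j | j)
    · exact c01 (zi i) (zi j)
    · exact (c2 (zi i)).mul_right (c01 (zi i) (zi j))
    · exact (c0 (zi j)).mul_left (c01 (zi i) (zi j))
    · exact (c02.mul_right (c0 (zi j))).mul_left ((c2 (zi i)).mul_right (c01 (zi i) (zi j))))

theorem sec_rho (x : C4) : sec (rho x) = x := by
  have : sec.comp rho = MonoidHom.id C4 := by
    apply hom_ext
    intro v
    rw [MonoidHom.comp_apply, rho_gen, MonoidHom.id_apply]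
    fin_cases v
    · show (gen Sq 0 * (gen Sq 0 * gen Sq 1) ^ (zi 0)) * (gen Sq 2 * gen Sq 3) ^ (zi 0) = gen Sq 0
      simp [zi_zero]
    · show (gen Sq 0 * (gen Sq 0 * gen Sq 1) ^ (zi 1)) * (gen Sq 2 * gen Sq 3) ^ (zi 0) = gen Sq 1
      rw [zi_one, zi_zero, zpow_one, zpow_zero, mul_one, ← mul_assoc, gen_sq, one_mul]
    · show (gen Sq 0 * gen Sq 1) ^ (zi 0) * (gen Sq 2 * (gen Sq 2 * gen Sq 3) ^ (zi 0)) = gen Sq 2
      simp [zi_zero]
    · show (gen Sq 0 * gen Sq 1) ^ (zi 0) * (gen Sq 2 * (gen Sq 2 * gen Sq 3) ^ (zi 1)) = gen Sq 3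
      rw [zi_one, zi_zero, zpow_one, zpow_zero, one_mul, ← mul_assoc, gen_sq, one_mul]
  exact DFunLike.congr_fun this x

theorem rho_inj : Function.Injective rho := Function.LeftInverse.injective sec_rho

theorem C4_law (x y : C4) : x ^ 2 * y ^ 2 = y ^ 2 * x ^ 2 := by
  apply rho_inj
  rw [map_mul, map_mul, map_pow, map_pow]
  apply Prod.ext
  · exact D_sq _ _
  · exact D_sq _ _

/-- the three generalised reflections `a`, `c`, `bd` -/
noncomputable def s : Fin 3 → C4 := ![gen Sq 0, gen Sq 2, gen Sq 1 * gen Sq 3]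

/-- the subgroup generated by them -/
noncomputable def H : Subgroup C4 := Subgroup.closure (Set.range s)

noncomputable def sH (i : Fin 3) : H := ⟨s i, Subgroup.subset_closure ⟨i, rfl⟩⟩

theorem H_ext {P : Type*} [Group P] {f g : H →* P} (h : ∀ i, f (sH i) = g (sH i)) : f = g := by
  apply MonoidHom.eq_of_eqOn_dense (s := Set.range sH)
  · rw [eq_top_iff]
    rintro ⟨x, hx⟩ _
    have key : ∀ y (hy : y ∈ Subgroup.closure (Set.range s)),
        (⟨y, hy⟩ : H) ∈ Subgroup.closure (Set.range sH) := by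
      intro y hy
      induction hy using Subgroup.closure_induction with
      | mem y hy => obtain ⟨i, rfl⟩ := hy; exact Subgroup.subset_closure ⟨i, rfl⟩
      | one => exact one_mem _
      | mul a b ha hb iha ihb => exact mul_mem iha ihb
      | inv a ha iha => exact inv_mem iha
    exact key x hx
  · rintro _ ⟨i, rfl⟩
    exact h i

/-- three characters of `H` dual to the generators -/
noncomputable def psi (j : Fin 3) : H →* ℤˣ :=
  (![((sgn.comp (MonoidHom.fst D D)).comp rho) * ((par.comp (MonoidHom.fst D D)).comp rho),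
     ((sgn.comp (MonoidHom.snd D D)).comp rho) * ((par.comp (MonoidHom.fst D D)).comp rho),
     ((par.comp (MonoidHom.fst D D)).comp rho)] j).comp H.subtype

theorem psi_s (i j : Fin 3) : psi j (sH i) = if i = j then -1 else 1 := by
  have r0 : rho (gen Sq 0) = (.sr 0, 1) := rho_gen 0
  have r1 : rho (gen Sq 1) = (.sr 1, 1) := rho_gen 1
  have r2 : rho (gen Sq 2) = (1, .sr 0) := rho_gen 2
  have r3 : rho (gen Sq 3) = (1, .sr 1) := rho_gen 3
  have p0 : par (.sr 0) = 1 := rfl
  have p1 : par (.sr 1) = -1 := rfl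
  have q0 : sgn (.sr 0) = -1 := rfl
  have q1 : sgn (.sr 1) = -1 := rfl
  fin_cases j <;> fin_cases i <;> simp [psi, sH, s, r0, r1, r2, r3, p0, p1, q0, q1]

theorem H_center (x : H) (h : ∀ i, x * sH i = sH i * x) : x = 1 := by
  apply Subtype.ext
  apply rho_inj
  have r0 : rho (gen Sq 0) = (.sr 0, 1) := rho_gen 0
  have r1 : rho (gen Sq 1) = (.sr 1, 1) := rho_gen 1
  have r2 : rho (gen Sq 2) = (1, .sr 0) := rho_gen 2
  have r3 : rho (gen Sq 3) = (1, .sr 1) := rho_gen 3
  have e : ∀ i, rho x * rho (s i) = rho (s i) * rho x := by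
    intro i
    rw [← map_mul, ← map_mul]
    exact congrArg rho (congrArg Subtype.val (h i))
  have e0 : rho x * (.sr 0, 1) = (.sr 0, 1) * rho x := by rw [← r0]; exact e 0
  have e1 : rho x * (1, .sr 0) = (1, .sr 0) * rho x := by rw [← r2]; exact e 1
  have e2 : rho x * (.sr 1, .sr 1) = (.sr 1, .sr 1) * rho x := by
    have : ((.sr 1, .sr 1) : D × D) = rho (gen Sq 1 * gen Sq 3) := by
      rw [map_mul, r1, r3]; rfl
    rw [this]; exact e 2
  have f0 := congrArg Prod.fst e0
  have f1 := congrArg Prod.snd e1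
  have f2 := congrArg Prod.fst e2
  have f3 := congrArg Prod.snd e2
  rw [Subgroup.coe_one, map_one]
  exact Prod.ext (cent0 f0 f2) (cent0 f1 f3)

theorem not_racg {V : Type u} (Δ : SimpleGraph V) (e : H ≃* RACG Δ) : False := by
  classical
  -- the number of vertices is three
  have inj1 : Function.Injective (fun z : V → ℤˣ => fun i : Fin 3 => chr Δ z (e (sH i))) := by
    intro z z' h
    have h1 : (chr Δ z).comp e.toMonoidHom = (chr Δ z').comp e.toMonoidHom :=
      H_ext (fun i => congrFun h i)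
    funext v
    have h2 := DFunLike.congr_fun h1 (e.symm (gen Δ v))
    have h3 : chr Δ z (e (e.symm (gen Δ v))) = chr Δ z' (e (e.symm (gen Δ v))) := h2
    rwa [MulEquiv.apply_symm_apply, chr_gen, chr_gen] at h3
  have inj2 : Function.Injective (fun z : Fin 3 → ℤˣ => fun v : V =>
      ((if z 0 = 1 then 1 else psi 0) * (if z 1 = 1 then 1 else psi 1) *
        (if z 2 = 1 then 1 else psi 2) : H →* ℤˣ) (e.symm (gen Δ v))) := by
    intro z z' h
    have h1 : ((if z 0 = 1 then 1 else psi 0) * (if z 1 = 1 then 1 else psi 1) *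
        (if z 2 = 1 then 1 else psi 2) : H →* ℤˣ).comp e.symm.toMonoidHom =
        ((if z' 0 = 1 then 1 else psi 0) * (if z' 1 = 1 then 1 else psi 1) *
        (if z' 2 = 1 then 1 else psi 2) : H →* ℤˣ).comp e.symm.toMonoidHom :=
      hom_ext Δ (fun v => congrFun h v)
    have h2 : ∀ i, ((if z 0 = 1 then 1 else psi 0) * (if z 1 = 1 then 1 else psi 1) *
        (if z 2 = 1 then 1 else psi 2) : H →* ℤˣ) (sH i) =
        ((if z' 0 = 1 then 1 else psi 0) * (if z' 1 = 1 then 1 else psi 1) *
        (if z' 2 = 1 then 1 else psi 2) : H →* ℤˣ) (sH i) := by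
      intro i
      have h3 := DFunLike.congr_fun h1 (e (sH i))
      simp only [MonoidHom.comp_apply] at h3
      have h4 : e.symm.toMonoidHom (e (sH i)) = sH i := e.symm_apply_apply _
      rwa [h4] at h3
    have h5 : ∀ (z : Fin 3 → ℤˣ) i, ((if z 0 = 1 then 1 else psi 0) *
        (if z 1 = 1 then 1 else psi 1) * (if z 2 = 1 then 1 else psi 2) : H →* ℤˣ) (sH i) = z i := by
      intro z i
      rcases Int.units_eq_one_or (z 0) with h0 | h0 <;>
      rcases Int.units_eq_one_or (z 1) with h1 | h1 <;>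
      rcases Int.units_eq_one_or (z 2) with h2 | h2 <;>
      fin_cases i <;> simp [h0, h1, h2, psi_s]
    funext i
    rw [← h5 z, ← h5 z']
    exact h2 i
  have fin1 : Finite (V → ℤˣ) := Finite.of_injective _ inj1
  have fin2 : Finite V := by
    apply Finite.of_injective (fun v : V => (fun w : V => if v = w then (-1 : ℤˣ) else 1))
    intro v w h
    by_contra hvw
    have := congrFun h v
    simp only [if_true] at this
    rw [if_neg (Ne.symm hvw)] at this
    exact absurd this (by decide)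
  have c1 := Nat.card_le_card_of_injective _ inj1
  have c2 := Nat.card_le_card_of_injective _ inj2
  have c3 : Nat.card ℤˣ = 2 := by rw [Nat.card_eq_fintype_card]; rfl
  have c4 : Nat.card (Fin 3) = 3 := by rw [Nat.card_eq_fintype_card, Fintype.card_fin]
  rw [Nat.card_fun, Nat.card_fun, c3, c4] at c1 c2
  have hV : Nat.card V = 3 := by
    have h1 := (Nat.pow_le_pow_iff_right (by norm_num : 1 < 2)).1 c1
    have h2 := (Nat.pow_le_pow_iff_right (by norm_num : 1 < 2)).1 c2
    omega
  obtain ⟨E⟩ : Nonempty (Fin 3 ≃ V) := by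
    have : Nonempty (V ≃ Fin (Nat.card V)) := ⟨Finite.equivFin V⟩
    rw [hV] at this
    exact this.map Equiv.symm
  -- no vertex has two non-neighbours
  have law : ∀ x y : RACG Δ, x ^ 2 * y ^ 2 = y ^ 2 * x ^ 2 := by
    intro x y
    apply e.symm.injective
    rw [map_mul, map_mul, map_pow, map_pow]
    apply Subtype.ext
    exact C4_law _ _
  have A1 : ∀ a b w : V, a ≠ b → a ≠ w → b ≠ w → Δ.Adj a w ∨ Δ.Adj b w := by
    intro a b w h1 h2 h3
    by_contra hc
    push Not at hc
    obtain ⟨x, y, hxy⟩ := not_law Δ h1 h2 h3 hc.1 hc.2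
    exact hxy (law x y)
  -- no vertex is adjacent to all others
  have A2 : ∀ w : V, ∃ v, v ≠ w ∧ ¬ Δ.Adj v w := by
    intro w
    by_contra hc
    push Not at hc
    have h1 := central Δ hc
    have h2 : e.symm (gen Δ w) = 1 := by
      apply H_center
      intro i
      have := congrArg e.symm (h1 (e (sH i)))
      rw [map_mul, map_mul, MulEquiv.symm_apply_apply] at this
      exact this.symm
    exact gen_ne_one Δ w (by rw [← map_one e.symm] at h2; exact e.symm.injective h2)
  have n01 : E 0 ≠ E 1 := fun h => absurd (E.injective h) (by decide)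
  have n02 : E 0 ≠ E 2 := fun h => absurd (E.injective h) (by decide)
  have n12 : E 1 ≠ E 2 := fun h => absurd (E.injective h) (by decide)
  have B : ∀ j : Fin 3, ∃ i : Fin 3, i ≠ j ∧ ¬ Δ.Adj (E i) (E j) := by
    intro j
    obtain ⟨v, h1, h2⟩ := A2 (E j)
    obtain ⟨i, rfl⟩ := E.surjective v
    exact ⟨i, fun h => h1 (by rw [h]), h2⟩
  obtain ⟨i0, a0, b0⟩ := B 0
  obtain ⟨i1, a1, b1⟩ := B 1
  obtain ⟨i2, a2, b2⟩ := B 2
  have s01 : Δ.Adj (E 0) (E 1) ↔ Δ.Adj (E 1) (E 0) := Δ.adj_comm _ _
  have s02 : Δ.Adj (E 0) (E 2) ↔ Δ.Adj (E 2) (E 0) := Δ.adj_comm _ _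
  have s12 : Δ.Adj (E 1) (E 2) ↔ Δ.Adj (E 2) (E 1) := Δ.adj_comm _ _
  have t0 := A1 (E 1) (E 2) (E 0) n12 n01.symm n02.symm
  have t1 := A1 (E 0) (E 2) (E 1) n02 n01 n12.symm
  have t2 := A1 (E 0) (E 1) (E 2) n01 n02 n12
  fin_cases i0 <;> fin_cases i1 <;> fin_cases i2 <;> simp at a0 a1 a2 b0 b1 b2 <;> tauto

theorem s_refl (i : Fin 3) : IsGenReflection Sq (s i) := by
  have refl : ∀ v, IsReflection Sq (gen Sq v) := fun v => ⟨1, v, by simp⟩
  fin_cases i
  · exact ⟨[gen Sq 0], by simp, by simp [refl], by simp, by simp [s]⟩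
  · exact ⟨[gen Sq 2], by simp, by simp [refl], by simp, by simp [s]⟩
  · refine ⟨[gen Sq 1, gen Sq 3], by simp, by simp [refl], ?_, by simp [s]⟩
    have c13 : Commute (gen Sq 1) (gen Sq 3) := gen_comm Sq (by rw [adj_iff]; decide)
    simp [c13]

/-! ### higher dimension -/

/-- The disjoint union of the 4-cycle and the complete graph on `n` vertices. -/
def Big (n : ℕ) : SimpleGraph (Fin 4 ⊕ Fin n) where
  Adj x y := match x, y with
    | Sum.inl i, Sum.inl j => Sq.Adj i j
    | Sum.inr i, Sum.inr j => i ≠ j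
    | Sum.inl _, Sum.inr _ => False
    | Sum.inr _, Sum.inl _ => False
  symm := ⟨by
    rintro (i | i) (j | j) h
    · exact h.symm
    · exact h
    · exact h
    · exact Ne.symm h⟩
  loopless := ⟨by
    rintro (i | i) h
    · exact h.ne rfl
    · exact h rfl⟩

noncomputable def inc (n : ℕ) : C4 →* RACG (Big n) :=
  lft Sq (fun v => gen (Big n) (Sum.inl v)) (fun v => gen_sq _ _)
    (fun v w h => gen_comm (Big n) (v := Sum.inl v) (w := Sum.inl w) h)

noncomputable def ret (n : ℕ) : RACG (Big n) →* C4 :=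
  lft (Big n) (Sum.elim (gen Sq) (fun _ => 1)) (by
    rintro (v | v)
    · exact gen_sq _ _
    · exact mul_one _) (by
    rintro (v | v) (w | w) h
    · exact gen_comm Sq h
    · exact h.elim
    · exact h.elim
    · rfl)

theorem inc_gen (n : ℕ) (v : Fin 4) : inc n (gen Sq v) = gen (Big n) (Sum.inl v) :=
  lft_gen _ _ _ _ v

theorem ret_inc (n : ℕ) (x : C4) : ret n (inc n x) = x := by
  have : (ret n).comp (inc n) = MonoidHom.id C4 := by
    apply hom_ext
    intro v
    rw [MonoidHom.comp_apply, inc_gen]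
    exact lft_gen _ _ _ _ (Sum.inl v)
  exact DFunLike.congr_fun this x

theorem inc_refl (n : ℕ) {x : C4} (h : IsGenReflection Sq x) : IsGenReflection (Big n) (inc n x) := by
  obtain ⟨l, h1, h2, h3, rfl⟩ := h
  refine ⟨l.map (inc n), by simpa using h1, ?_, ?_, by rw [map_list_prod]⟩
  · intro r hr
    obtain ⟨y, hy, rfl⟩ := List.mem_map.1 hr
    obtain ⟨g, v, rfl⟩ := h2 y hy
    exact ⟨inc n g, Sum.inl v, by rw [map_mul, map_mul, map_inv, inc_gen]⟩
  · rw [List.pairwise_map]
    exact h3.imp (fun h => h.map (inc n))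

/-- **A generalised reflection subgroup need not be a right-angled Coxeter group.**  In the
right-angled Coxeter group of the 4-cycle (of dimension two) there is a finite set `S` of
generalised reflections such that the subgroup generated by `S` is not isomorphic to `C(Δ)` for
any simplicial graph `Δ`.  The same happens in right-angled Coxeter groups `C(Γ)`, `Γ` finite,
of arbitrarily large dimension (i.e. `Γ` has a complete subgraph with `n` vertices). -/
theorem result :
    (∃ (Γ : SimpleGraph (Fin 4)) (S : Set (RACG Γ)), S.Finite ∧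
      (∀ x ∈ S, IsGenReflection Γ x) ∧
      ∀ (V : Type u) (Δ : SimpleGraph V), IsEmpty (Subgroup.closure S ≃* RACG Δ)) ∧
    (∀ n : ℕ, ∃ (W : Type) (_ : Finite W) (Γ : SimpleGraph W) (S : Set (RACG Γ)),
      (∃ t : Finset W, Γ.IsNClique n t) ∧ S.Finite ∧ (∀ x ∈ S, IsGenReflection Γ x) ∧
      ∀ (V : Type u) (Δ : SimpleGraph V), IsEmpty (Subgroup.closure S ≃* RACG Δ)) := by
  constructor
  · refine ⟨Sq, Set.range s, Set.finite_range s, ?_, fun V Δ => ⟨fun e => not_racg Δ e⟩⟩
    rintro _ ⟨i, rfl⟩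
    exact s_refl i
  · intro n
    refine ⟨Fin 4 ⊕ Fin n, inferInstance, Big n, (inc n) '' (Set.range s), ?_,
      (Set.finite_range s).image _, ?_, fun V Δ => ⟨fun e => ?_⟩⟩
    · refine ⟨Finset.univ.map ⟨Sum.inr, Sum.inr_injective⟩, ?_⟩
      rw [SimpleGraph.isNClique_iff]
      constructor
      · intro x hx y hy hxy
        simp only [Finset.coe_map, Function.Embedding.coeFn_mk, Finset.coe_univ, Set.image_univ,
          Set.mem_range] at hx hy
        obtain ⟨i, rfl⟩ := hx
        obtain ⟨j, rfl⟩ := hy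
        exact fun h => hxy (by rw [h])
      · simp
    · rintro _ ⟨_, ⟨i, rfl⟩, rfl⟩
      exact inc_refl n (s_refl i)
    · rw [← MonoidHom.map_closure] at e
      exact not_racg Δ ((Subgroup.equivMapOfInjective H (inc n)
        (Function.LeftInverse.injective (ret_inc n))).trans e)

end Pool.Agent.Results.MP_6a2cdd_al.NotCoxeter
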